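import Pool.Agent.H19.NF.Nf

/-!
# [H19 NF] The states of AP

`W : P → P → ℂ` (function of commuting pairs), `b : P → P → M`, `q : P →* G`, `ψ : AddChar M ℂ`.
`VV q b W σ h`: the sum over `x ∈ P` above `h` of `W σ x * ψ (- br b σ x)` (without the factor `|ker q|⁻¹`).
If `d2 b = inf w` then `VV` has the properties (C) and (N) of think 1455 for `w`; `vv_push`: the sum over the fibre of a further quotient.
-/

set_option autoImplicit false

namespace Pool.Agent.H19.NF

section

variable {P G H M : Type*} [Group P] [Group G] [Group H] [AddCommGroup M] [Fintype P] (ψ : AddChar M ℂ)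

/-- conjugation invariant functions on commuting pairs with `W σ (x σ) = W σ x` -/
structure Wt (W : P → P → ℂ) : Prop where
  supp : ∀ σ x, W σ x ≠ 0 → σ * x = x * σ
  conj : ∀ g σ x, W (g * σ * g⁻¹) (g * x * g⁻¹) = W σ x
  shift : ∀ σ x, W σ (x * σ) = W σ x

open Classical in
/-- the sum over the fibre -/
noncomputable def VV (q : P →* G) (b : P → P → M) (W : P → P → ℂ) (σ : P) (h : G) : ℂ :=
  ∑ x : P, if q x = h then W σ x * ψ (- br b σ x) else 0

variable {ψ}

theorem vv_supp {q : P →* G} {b : P → P → M} {W : P → P → ℂ} (hW : Wt W) {σ : P} {h : G}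
    (h0 : VV ψ q b W σ h ≠ 0) : ∃ x : P, q x = h ∧ σ * x = x * σ := by
  classical
  unfold VV at h0
  obtain ⟨x, -, hx⟩ := Finset.exists_ne_zero_of_sum_ne_zero h0
  by_cases hq : q x = h
  · rw [if_pos hq] at hx
    exact ⟨x, hq, hW.supp σ x (left_ne_zero_of_mul hx)⟩
  · rw [if_neg hq] at hx
    exact absurd rfl hx

theorem vv_comm {q : P →* G} {b : P → P → M} {W : P → P → ℂ} (hW : Wt W) {σ : P} {h : G}
    (h0 : VV ψ q b W σ h ≠ 0) : q σ * h = h * q σ := by
  obtain ⟨x, hx, hc⟩ := vv_supp hW h0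
  rw [← hx, ← map_mul, ← map_mul, hc]

omit [Fintype P] in
theorem hc_inf (q : P →* G) (w : G → G → G → M) (g x y : P) :
    hc (fun x y z => w (q x) (q y) (q z)) g x y = hc w (q g) (q x) (q y) := by
  unfold hc
  simp only [map_mul, map_inv]

/-- (C) -/
theorem vv_conj {q : P →* G} {b : P → P → M} {w : G → G → G → M}
    (hb : ∀ x y z, d2 b x y z = w (q x) (q y) (q z)) {W : P → P → ℂ} (hW : Wt W) (g σ : P) (h : G) :
    VV ψ q b W (g * σ * g⁻¹) (q g * h * (q g)⁻¹) = VV ψ q b W σ h * ψ (- br (hc w (q g)) (q σ) h) := by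
  classical
  unfold VV
  rw [Finset.sum_mul]
  refine (Fintype.sum_equiv (MulAut.conj g).toEquiv _ _ fun x => ?_).symm
  show (if q x = h then W σ x * ψ (- br b σ x) else 0) * ψ (- br (hc w (q g)) (q σ) h) =
    if q (g * x * g⁻¹) = q g * h * (q g)⁻¹ then W (g * σ * g⁻¹) (g * x * g⁻¹) *
      ψ (- br b (g * σ * g⁻¹) (g * x * g⁻¹)) else 0
  have e : q (g * x * g⁻¹) = q g * h * (q g)⁻¹ ↔ q x = h := by
    rw [map_mul, map_mul, map_inv, mul_left_inj, mul_right_inj]
  by_cases hq : q x = h
  · rw [if_pos hq, if_pos (e.2 hq), hW.conj]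
    by_cases h0 : W σ x = 0
    · rw [h0, zero_mul, zero_mul, zero_mul]
    · have hc' := hW.supp σ x h0
      have e1 := br_conj b g hc'
      have e2 : br (hc (d2 b) g) σ x = br (hc w (q g)) (q σ) h := by
        have e3 : d2 b = fun x y z => w (q x) (q y) (q z) := by
          funext x y z
          exact hb x y z
        unfold br
        rw [e3, hc_inf, hc_inf, hq]
      have e4 : - br b (g * σ * g⁻¹) (g * x * g⁻¹) = - br b σ x + - br (hc w (q g)) (q σ) h := by
        rw [← e2, ← e1]
        abel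
      rw [e4, AddChar.map_add_eq_mul]
      ring
  · rw [if_neg hq, if_neg (fun h' => hq (e.1 h')), zero_mul]

/-- (N) -/
theorem vv_shift {q : P →* G} {b : P → P → M} {w : G → G → G → M}
    (hb : ∀ x y z, d2 b x y z = w (q x) (q y) (q z)) {W : P → P → ℂ} (hW : Wt W) (σ : P) (h : G) :
    VV ψ q b W σ (h * q σ) = VV ψ q b W σ h * ψ (- w (q σ) h (q σ)) := by
  classical
  unfold VV
  rw [Finset.sum_mul]
  refine (Fintype.sum_equiv (Equiv.mulRight σ) _ _ fun x => ?_).symm
  show (if q x = h then W σ x * ψ (- br b σ x) else 0) * ψ (- w (q σ) h (q σ)) =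
    if q (x * σ) = h * q σ then W σ (x * σ) * ψ (- br b σ (x * σ)) else 0
  have e : q (x * σ) = h * q σ ↔ q x = h := by
    rw [map_mul, mul_left_inj]
  by_cases hq : q x = h
  · rw [if_pos hq, if_pos (e.2 hq), hW.shift]
    by_cases h0 : W σ x = 0
    · rw [h0, zero_mul, zero_mul, zero_mul]
    · have hc' := hW.supp σ x h0
      have e1 := br_shift b hc'
      rw [hb, hq] at e1
      have e4 : - br b σ (x * σ) = - br b σ x + - w (q σ) h (q σ) := by
        rw [← e1]
        abel
      rw [e4, AddChar.map_add_eq_mul]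
      ring
  · rw [if_neg hq, if_neg (fun h' => hq (e.1 h')), zero_mul]

/-- the sum over the fibres of a further quotient -/
theorem vv_push [Fintype G] {q : P →* G} (r : G →* H) (b : P → P → M) (c : G → G → M) (W : P → P → ℂ) (σ : P)
    (h : H) : VV ψ (r.comp q) (fun x y => b x y - c (q x) (q y)) W σ h =
      ∑ x : G, open Classical in if r x = h then VV ψ q b W σ x * ψ (br c (q σ) x) else 0 := by
  classical
  unfold VV
  have e : ∀ x : G, (if r x = h then (∑ u : P, if q u = x then W σ u * ψ (- br b σ u) else 0) * ψ (br c (q σ) x)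
      else 0) = ∑ u : P, if q u = x then (if r x = h then W σ u * ψ (- br b σ u) * ψ (br c (q σ) x) else 0) else 0 := by
    intro x
    by_cases hx : r x = h
    · rw [if_pos hx, Finset.sum_mul]
      refine Finset.sum_congr rfl fun u _ => ?_
      rw [if_pos hx, ite_mul, zero_mul]
    · rw [if_neg hx]
      refine (Finset.sum_eq_zero fun u _ => ?_).symm
      rw [if_neg hx, ite_self]
  rw [Finset.sum_congr rfl fun x _ => e x, Finset.sum_comm]
  refine Finset.sum_congr rfl fun u _ => ?_
  rw [Finset.sum_ite_eq Finset.univ (q u) (fun x => if r x = h then W σ u * ψ (- br b σ u) * ψ (br c (q σ) x) else 0),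
    if_pos (Finset.mem_univ _)]
  show (if r (q u) = h then W σ u * ψ (- br (fun x y => b x y - c (q x) (q y)) σ u) else 0) = _
  have e1 : - br (fun x y => b x y - c (q x) (q y)) σ u = - br b σ u + br c (q σ) (q u) := by
    unfold br
    beta_reduce
    abel
  rw [e1, AddChar.map_add_eq_mul, mul_assoc]

end

/-! ### The cases -/

section

variable {p : ℕ} {G H M : Type*} [Group G] [Group H] [AddCommGroup M] (E : CE p G H)

include E

/-- the 2-cocycle of the extension (with the sign of `d1 et`) -/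
def CE.ee (g h : H) : ZMod p := - E.et (E.s g * E.s h)

theorem CE.et_mul (x y : G) : E.et (x * y) = E.et x + E.et y + E.et (E.s (E.pi x) * E.s (E.pi y)) := by
  have h : x * y = E.i (E.et x) * (E.i (E.et y) * (E.s (E.pi x) * E.s (E.pi y))) := by
    conv_lhs => rw [E.dec x, E.dec y]
    rw [mul_assoc, ← mul_assoc (E.s (E.pi x)), ← E.cent, mul_assoc]
  conv_lhs => rw [h]
  rw [E.et_i, E.et_i, add_assoc]

/-- `d et = ee` -/
theorem CE.d1_et (x y : G) : d1 E.et x y = E.ee (E.pi x) (E.pi y) := by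
  unfold d1 CE.ee
  rw [E.et_mul]
  ring

/-- `inf ν = d λ`: `λ` is `k et + inf μ` -/
theorem lam_form {ν : H → H → ZMod p} (hν : Nr2 ν) {l : G → ZMod p}
    (hl : ∀ x y, d1 l x y = ν (E.pi x) (E.pi y)) : ∃ k : ZMod p, ∀ x, l x = k * E.et x + l (E.s (E.pi x)) := by
  have add : ∀ a x, l (E.i a * x) = l (E.i a) + l x := by
    intro a x
    have h := hl (E.i a) x
    unfold d1 at h
    rw [E.pi_i, hν.l] at h
    linear_combination -h
  have h0 : l 1 = 0 := by
    have h := add 0 1
    rw [E.i_zero, mul_one] at h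
    linear_combination -h
  have lin : ∀ a : ZMod p, l (E.i a) = l (E.i 1) * a := by
    let f : ZMod p →+ ZMod p := AddMonoidHom.mk' (fun a => l (E.i a)) fun a b => by
      rw [E.i_add, add]
    intro a
    obtain ⟨n, rfl⟩ := ZMod.intCast_surjective a
    show f (n : ZMod p) = f 1 * (n : ZMod p)
    have e : (n : ZMod p) = n • (1 : ZMod p) := by rw [zsmul_one]
    rw [e, map_zsmul, zsmul_eq_mul, zsmul_one, mul_comm]
  refine ⟨l (E.i 1), fun x => ?_⟩
  conv_lhs => rw [E.dec x]
  rw [add, lin]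

/-- case C: if `ν = d μ` the normal form is inflated up to a coboundary -/
theorem cup_et {θ : ZMod p →+ M} {ν : H → H → ZMod p} {μ : H → ZMod p} (hμ : ∀ x y, d1 μ x y = ν x y) (x y z : G) :
    θ (ν (E.pi x) (E.pi y) * E.et z) = θ (μ (E.pi x) * E.ee (E.pi y) (E.pi z)) +
      d2 (fun x y => θ (μ (E.pi x) * E.et y)) x y z := by
  have h1 := E.d1_et y z
  rw [← h1, ← hμ]
  unfold d2 d1
  beta_reduce
  rw [← map_sub, ← map_add, ← map_sub, ← map_add, map_mul E.pi]
  congr 1
  ring

/-- the survivors: `β : H → ZMod p` a homomorphism -/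
theorem cup_beta {θ : ZMod p →+ M} {β : H → ZMod p} (hβ : ∀ x y, β (x * y) = β x + β y) (x y z : G) :
    d2 (fun x y => θ (β (E.pi x) * E.et y)) x y z = - θ (β (E.pi x) * E.ee (E.pi y) (E.pi z)) := by
  have h1 := E.d1_et y z
  rw [← h1]
  unfold d2 d1
  beta_reduce
  rw [← map_sub, ← map_add, ← map_sub, ← map_neg, map_mul E.pi, hβ]
  congr 1
  ring

end

end Pool.Agent.H19.NF
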