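import Pool.Agent.H19.NF.Coc

/-!
# [H19 NF] The functional `I`

`d2h`: the coboundary of 2-cochains as a homomorphism. `exists_I`: a homomorphism on the 2-cochains with values in a divisible group which vanishes on the 2-cocycles is `I ∘ d2` for a homomorphism `I` on all 3-cochains.
-/

set_option autoImplicit false

namespace Pool.Agent.H19.NF

variable {G M Q : Type*} [Group G] [AddCommGroup M] [AddCommGroup Q]

/-- the coboundary of 2-cochains as a homomorphism -/
def d2h (G M : Type*) [Group G] [AddCommGroup M] : (G → G → M) →+ (G → G → G → M) where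
  toFun c := d2 c
  map_zero' := by
    funext x y z
    show (0 : M) - 0 + 0 - 0 = 0
    simp
  map_add' c c' := by
    funext x y z
    exact d2_add c c' x y z

theorem exists_I [DivisibleBy Q ℤ] (S : AddSubgroup (G → G → M)) (L : S →+ Q)
    (hL : ∀ ψ : S, (∀ x y z, d2 ψ.1 x y z = 0) → L ψ = 0) :
    ∃ I : (G → G → G → M) →+ Q, ∀ ψ : S, I (d2 ψ.1) = L ψ := by
  -- the functional on the image
  let D : S →+ (G → G → G → M) := (d2h G M).comp S.subtype
  have hk : D.ker ≤ L.ker := by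
    intro ψ hψ
    rw [AddMonoidHom.mem_ker] at hψ ⊢
    refine hL ψ fun x y z => ?_
    have h : d2 ψ.1 = 0 := hψ
    rw [h]
    rfl
  let g : D.range →+ Q := (QuotientAddGroup.lift D.ker L hk).comp
    (QuotientAddGroup.quotientKerEquivRange D).symm.toAddMonoidHom
  obtain ⟨I, hI⟩ := (Module.Baer.of_divisible Q).extension_property_addMonoidHom D.range.subtype
    (AddSubgroup.subtype_injective _) g
  refine ⟨I, fun ψ => ?_⟩
  have h1 : I (D ψ) = g ⟨D ψ, ⟨ψ, rfl⟩⟩ := by
    rw [← hI]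
    rfl
  have h2 : (QuotientAddGroup.quotientKerEquivRange D).symm ⟨D ψ, ⟨ψ, rfl⟩⟩ = (ψ : S ⧸ D.ker) := by
    rw [AddEquiv.symm_apply_eq]
    rfl
  have h3 : g ⟨D ψ, ⟨ψ, rfl⟩⟩ = L ψ := by
    show QuotientAddGroup.lift D.ker L hk ((QuotientAddGroup.quotientKerEquivRange D).symm ⟨D ψ, ⟨ψ, rfl⟩⟩) = L ψ
    rw [h2]
    rfl
  rw [← h3, ← h1]
  rfl

end Pool.Agent.H19.NF
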