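import Pool.Agent.H19.NF.Nf

/-!
# [H19 NF] (A3) exponent `p`

`pw3`: the sum `∑_{j<p} (d b)(g, g^j, g)` is zero if `g^p = 1`. `pw_nu`: in the normal form of a 3-cocycle of a quotient of a group of exponent `p`
which becomes a coboundary there, `∑_{j<p} ν(h, h^j) = 0` for all `h`: the extension by `ν` has exponent `p`.
-/

set_option autoImplicit false

namespace Pool.Agent.H19.NF

theorem pw3 {P M : Type*} [Group P] [AddCommGroup M] {p : ℕ} (b : P → P → M) {g : P} (hg : g ^ p = 1) :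
    ∑ j ∈ Finset.range p, d2 b g (g ^ j) g = 0 := by
  have h1 : ∀ j : ℕ, d2 b g (g ^ j) g =
      (b g (g ^ (j + 1)) - b g (g ^ j)) - (b (g ^ (j + 1)) g - b (g ^ j) g) := by
    intro j
    unfold d2
    rw [← pow_succ', ← pow_succ]
    abel
  rw [Finset.sum_congr rfl fun j _ => h1 j, Finset.sum_sub_distrib,
    Finset.sum_range_sub (fun j => b g (g ^ j)), Finset.sum_range_sub (fun j => b (g ^ j) g), hg,
    pow_zero]
  abel

theorem pw_nu {p : ℕ} {P G H M : Type*} [Group P] [Group G] [Group H] [AddCommGroup M] (E : CE p G H)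
    (q : P →* G) (hq : Function.Surjective q) (hP : ∀ x : P, x ^ p = 1) {b : P → P → M}
    {w : G → G → G → M} (hb : ∀ x y z, d2 b x y z = w (q x) (q y) (q z)) {k : H → H → H → M}
    {θ : ZMod p →+ M} (hθ : Function.Injective θ) {ν : H → H → ZMod p} {c : G → G → M}
    (hw : ∀ x y z, w x y z = k (E.pi x) (E.pi y) (E.pi z) + θ (ν (E.pi x) (E.pi y) * E.et z) +
      d2 c x y z) (h : H) : ∑ j ∈ Finset.range p, ν h (h ^ j) = 0 := by
  have hG : ∀ x : G, x ^ p = 1 := by
    intro x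
    obtain ⟨x, rfl⟩ := hq x
    rw [← map_pow, hP, map_one]
  have h0 : ∀ x : G, ∑ j ∈ Finset.range p, w x (x ^ j) x = 0 := by
    intro x
    obtain ⟨x, rfl⟩ := hq x
    have h1 := pw3 b (hP x)
    rw [Finset.sum_congr rfl fun j _ => hb x (x ^ j) x] at h1
    rw [← h1]
    exact Finset.sum_congr rfl fun j _ => by rw [map_pow]
  have h2 : ∀ x : G, ∑ j ∈ Finset.range p, k (E.pi x) (E.pi x ^ j) (E.pi x) +
      θ ((∑ j ∈ Finset.range p, ν (E.pi x) (E.pi x ^ j)) * E.et x) = 0 := by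
    intro x
    rw [← h0 x, Finset.sum_mul, map_sum, ← add_zero (_ + _), ← pw3 c (hG x),
      ← Finset.sum_add_distrib, ← Finset.sum_add_distrib]
    refine Finset.sum_congr rfl fun j _ => ?_
    rw [hw, map_pow]
  have h3 := h2 (E.i 1 * E.s h)
  have h4 := h2 (E.s h)
  rw [E.pi_mul, E.pi_s, E.et_i, E.et_s, add_zero, mul_one] at h3
  rw [E.pi_s, E.et_s, mul_zero, map_zero, add_zero] at h4
  rw [h4, zero_add] at h3
  exact hθ (by rw [h3, map_zero])

end Pool.Agent.H19.NF
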