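import Mathlib

/-!
# [H19 NF] Cochains of groups with trivial action

`d1`, `d2`, `d3`: the coboundaries. `br b s x = b s x - b x s`: the torus bracket of a 2-cochain. `hc w g`: the homotopy of conjugation by `g` applied to a 3-cochain.
`Nr2`, `Nr3`: normalised cochains. Part of the main term of Malle's conjecture for groups of exponent `p` (MP_b39724, think 1455, 1468, 1479).
-/

set_option autoImplicit false

namespace Pool.Agent.H19.NF

variable {G H M : Type*} [Group G] [Group H] [AddCommGroup M]

/-- the coboundary of a 1-cochain -/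
def d1 (l : G → M) (x y : G) : M := l y - l (x * y) + l x

/-- the coboundary of a 2-cochain -/
def d2 (c : G → G → M) (x y z : G) : M := c y z - c (x * y) z + c x (y * z) - c x y

/-- the coboundary of a 3-cochain -/
def d3 (w : G → G → G → M) (x y z t : G) : M :=
  w y z t - w (x * y) z t + w x (y * z) t - w x y (z * t) + w x y z

/-- normalised 2-cochains -/
structure Nr2 (c : G → G → M) : Prop where
  l : ∀ y, c 1 y = 0
  r : ∀ x, c x 1 = 0

/-- normalised 3-cochains -/
structure Nr3 (w : G → G → G → M) : Prop where
  l : ∀ y z, w 1 y z = 0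
  m : ∀ x z, w x 1 z = 0
  r : ∀ x y, w x y 1 = 0

/-- the torus bracket -/
def br (b : G → G → M) (s x : G) : M := b s x - b x s

/-- the homotopy of conjugation by `g` on 3-cochains, `x ↦ g x g⁻¹` -/
def hc (w : G → G → G → M) (g x y : G) : M :=
  w (g * x * g⁻¹) g y - w g x y - w (g * x * g⁻¹) (g * y * g⁻¹) g

theorem d2_d1 (l : G → M) (x y z : G) : d2 (d1 l) x y z = 0 := by
  unfold d2 d1
  rw [mul_assoc]
  abel

theorem d3_d2 (c : G → G → M) (x y z t : G) : d3 (d2 c) x y z t = 0 := by
  unfold d3 d2
  simp only [mul_assoc]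
  abel

theorem Nr3.d2 {c : G → G → M} (h : Nr2 c) : Nr3 (d2 c) where
  l := fun y z => by
    unfold NF.d2
    rw [h.l, h.l, one_mul]
    abel
  m := fun x z => by
    unfold NF.d2
    rw [h.l, h.r, one_mul, mul_one]
    abel
  r := fun x y => by
    unfold NF.d2
    rw [h.r, h.r, mul_one]
    abel

theorem d3_sub (w w' : G → G → G → M) (x y z t : G) :
    d3 (fun x y z => w x y z - w' x y z) x y z t = d3 w x y z t - d3 w' x y z t := by
  unfold d3
  beta_reduce
  abel

theorem d3_add (w w' : G → G → G → M) (x y z t : G) :
    d3 (fun x y z => w x y z + w' x y z) x y z t = d3 w x y z t + d3 w' x y z t := by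
  unfold d3
  beta_reduce
  abel

theorem d2_add (c c' : G → G → M) (x y z : G) :
    d2 (fun x y => c x y + c' x y) x y z = d2 c x y z + d2 c' x y z := by
  unfold d2
  beta_reduce
  abel

theorem d2_sub (c c' : G → G → M) (x y z : G) :
    d2 (fun x y => c x y - c' x y) x y z = d2 c x y z - d2 c' x y z := by
  unfold d2
  beta_reduce
  abel

/-- 1-coboundaries have trivial bracket -/
theorem br_d1 (l : G → M) {s x : G} (h : s * x = x * s) : br (d1 l) s x = 0 := by
  unfold br d1
  rw [h]
  abel

omit [Group G] in
theorem br_add (b b' : G → G → M) (s x : G) : br (fun x y => b x y + b' x y) s x = br b s x + br b' s x := by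
  unfold br
  beta_reduce
  abel

omit [Group G] in
theorem br_sub (b b' : G → G → M) (s x : G) : br (fun x y => b x y - b' x y) s x = br b s x - br b' s x := by
  unfold br
  beta_reduce
  abel

/-- conjugation -/
theorem br_conj (b : G → G → M) (g : G) {s x : G} (h : s * x = x * s) :
    br b (g * s * g⁻¹) (g * x * g⁻¹) - br b s x = br (hc (d2 b) g) s x := by
  have e : ∀ u : G, g * u * g⁻¹ * g = g * u := fun u => by group
  have e2 : ∀ u v : G, g * u * g⁻¹ * (g * v * g⁻¹) = g * (u * v) * g⁻¹ := fun u v => by group
  unfold br hc d2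
  simp only [e, e2, h]
  abel

/-- translation of `x` by `s` -/
theorem br_shift (b : G → G → M) {s x : G} (h : s * x = x * s) :
    br b s (x * s) - br b s x = d2 b s x s := by
  unfold br d2
  rw [h]
  abel

end Pool.Agent.H19.NF
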