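import Pool.Agent.H19.NF.Coc

/-!
# [H19 NF] 2-cocycles of the cyclic group of order `p`
-/

set_option autoImplicit false

namespace Pool.Agent.H19.NF

variable {p : ℕ} [NeZero p] {M : Type*} [AddCommGroup M]

/-- A normalised 2-cocycle of `ZMod p` with values killed by `p ^ j` is the coboundary of a cochain with values killed by `p ^ (j + 1)`. -/
theorem cyc {j : ℕ} (hdiv : ∀ x : M, p ^ j • x = 0 → ∃ y, p • y = x) {f : ZMod p → ZMod p → M}
    (hf : ∀ a b c, f b c - f (a + b) c + f a (b + c) - f a b = 0) (hl : ∀ b, f 0 b = 0) (hr : ∀ a, f a 0 = 0)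
    (ht : ∀ a b, p ^ j • f a b = 0) :
    ∃ g : ZMod p → M, (∀ a, p ^ (j + 1) • g a = 0) ∧ g 0 = 0 ∧ ∀ a b, f a b = g b - g (a + b) + g a := by
  let F : ℕ → M := fun n => ∑ i ∈ Finset.range n, f (i : ZMod p) 1
  have hF : ∀ n, p ^ j • F n = 0 := by
    intro n
    rw [Finset.smul_sum]
    exact Finset.sum_eq_zero fun i _ => ht _ _
  obtain ⟨u, hu⟩ := hdiv (F p) (hF p)
  let g : ZMod p → M := fun a => a.val • u - F a.val
  have hg : ∀ n : ℕ, n ≤ p → g (n : ZMod p) = n • u - F n := by
    intro n hn
    rcases hn.lt_or_eq with h | h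
    · show (n : ZMod p).val • u - F (n : ZMod p).val = n • u - F n
      rw [ZMod.val_natCast, Nat.mod_eq_of_lt h]
    · have h0 : g 0 = 0 := by
        show (0 : ZMod p).val • u - F (0 : ZMod p).val = 0
        rw [ZMod.val_zero, zero_smul]
        show 0 - ∑ i ∈ Finset.range 0, f (i : ZMod p) 1 = 0
        rw [Finset.sum_range_zero, sub_zero]
      rw [h, ZMod.natCast_self, h0, hu, sub_self]
  have h1 : ∀ a : ZMod p, f a 1 = g 1 - g (a + 1) + g a := by
    intro a
    have ha : ((a.val : ℕ) : ZMod p) = a := ZMod.natCast_zmod_val a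
    have hlt := ZMod.val_lt a
    have e1 : g a = a.val • u - F a.val := rfl
    have e2 : g (a + 1) = (a.val + 1) • u - F (a.val + 1) := by
      have h := hg (a.val + 1) hlt
      rwa [Nat.cast_add, ha, Nat.cast_one] at h
    have e3 : g 1 = u - F 1 := by
      have hp : 1 ≤ p := Nat.one_le_iff_ne_zero.2 (NeZero.ne p)
      have h := hg 1 hp
      rwa [Nat.cast_one, one_smul] at h
    have e4 : F 1 = 0 := by
      show ∑ i ∈ Finset.range 1, f (i : ZMod p) 1 = 0
      rw [Finset.sum_range_one, Nat.cast_zero, hl]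
    have e5 : F (a.val + 1) = F a.val + f a 1 := by
      show ∑ i ∈ Finset.range (a.val + 1), f (i : ZMod p) 1 = ∑ i ∈ Finset.range a.val, f (i : ZMod p) 1 + f a 1
      rw [Finset.sum_range_succ, ha]
    rw [e1, e2, e3, e4, e5, add_smul, one_smul]
    abel
  have h2 : ∀ a b : ZMod p, f a b - (g b - g (a + b) + g a) = 0 := by
    intro a b
    have key : ∀ n : ℕ, f a (n : ZMod p) - (g (n : ZMod p) - g (a + (n : ZMod p)) + g a) = 0 := by
      intro n
      induction n with
      | zero =>
        have h0 : g 0 = 0 := by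
          have h := hg 0 (Nat.zero_le p)
          rw [Nat.cast_zero, zero_smul] at h
          rw [h]
          show 0 - ∑ i ∈ Finset.range 0, f (i : ZMod p) 1 = 0
          rw [Finset.sum_range_zero, sub_zero]
        rw [Nat.cast_zero, hr, h0, add_zero]
        abel
      | succ n ih =>
        have e := hf a n 1
        rw [h1, h1] at e
        rw [Nat.cast_add, Nat.cast_one, ← add_assoc]
        linear_combination (norm := abel) e + ih
    have h := key b.val
    rwa [ZMod.natCast_zmod_val] at h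
  refine ⟨g, ?_, ?_, fun a b => sub_eq_zero.1 (h2 a b)⟩
  · intro a
    show p ^ (j + 1) • (a.val • u - F a.val) = 0
    have e1 : p ^ (j + 1) • (a.val • u) = 0 := by
      rw [pow_succ, mul_smul, smul_comm p a.val u, hu, smul_comm, hF, smul_zero]
    have e2 : p ^ (j + 1) • F a.val = 0 := by
      rw [pow_succ', mul_smul, hF, smul_zero]
    rw [smul_sub, e1, e2, sub_zero]
  · have h := hg 0 (Nat.zero_le p)
    rw [Nat.cast_zero, zero_smul] at h
    rw [h]
    show 0 - ∑ i ∈ Finset.range 0, f (i : ZMod p) 1 = 0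
    rw [Finset.sum_range_zero, sub_zero]

end Pool.Agent.H19.NF
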