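import Pool.Agent.H19.NF.Cyc

/-!
# [H19 NF] The normal form of a 3-cocycle on a central extension by `ZMod p`

`CE p G H`: `G → H` is a central extension with kernel `i (ZMod p)`, section `s`, coordinate `et` (`x = i (et x) * s (pi x)`).
`nf`: a normalised 3-cocycle `w` with values killed by `p ^ j`, whose restriction to the kernel is a coboundary, is `inf k + θ (inf ν · et) + d c`, `ν` a 2-cocycle of `H` with values in `ZMod p`.
-/

set_option autoImplicit false

namespace Pool.Agent.H19.NF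

/-- a central extension by `ZMod p` with a section -/
structure CE (p : ℕ) (G H : Type*) [Group G] [Group H] where
  pi : G →* H
  i : ZMod p → G
  s : H → G
  et : G → ZMod p
  i_add : ∀ a b, i (a + b) = i a * i b
  cent : ∀ a x, i a * x = x * i a
  pi_i : ∀ a, pi (i a) = 1
  pi_s : ∀ h, pi (s h) = h
  s_one : s 1 = 1
  dec : ∀ x, x = i (et x) * s (pi x)
  et_i : ∀ a x, et (i a * x) = a + et x

section

variable {p : ℕ} {G H M : Type*} [Group G] [Group H] [AddCommGroup M] (E : CE p G H)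

include E

namespace CE

theorem i_zero : E.i 0 = 1 := by
  have h := E.i_add 0 0
  rw [add_zero] at h
  exact (mul_eq_left.1 h.symm)

theorem et_one : E.et 1 = 0 := by
  have h : (1 : G) = E.i (E.et 1) * E.s (E.pi 1) := E.dec 1
  rw [map_one, E.s_one, mul_one] at h
  have h2 := E.et_i (E.et 1) 1
  rw [mul_one, ← h] at h2
  have h3 : E.et 1 + 0 = E.et 1 + E.et 1 := by rw [add_zero]; exact h2
  exact (add_left_cancel h3).symm

theorem et_s (h : H) : E.et (E.s h) = 0 := by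
  have h1 : E.s h = E.i (E.et (E.s h)) * E.s h := by
    conv_lhs => rw [E.dec (E.s h), E.pi_s]
  have h2 : E.i (E.et (E.s h)) = 1 := by
    have h3 : 1 * E.s h = E.i (E.et (E.s h)) * E.s h := by rw [one_mul]; exact h1
    exact (mul_right_cancel h3).symm
  have h4 := E.et_i (E.et (E.s h)) 1
  rw [mul_one, h2, E.et_one, add_zero] at h4
  exact h4.symm

theorem et_i' (a : ZMod p) : E.et (E.i a) = a := by
  have h := E.et_i a 1
  rwa [mul_one, E.et_one, add_zero] at h

theorem pi_mul (a : ZMod p) (x : G) : E.pi (E.i a * x) = E.pi x := by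
  rw [map_mul, E.pi_i, one_mul]

theorem eq_i {x : G} (h : E.pi x = 1) : x = E.i (E.et x) := by
  have h1 := E.dec x
  rwa [h, E.s_one, mul_one] at h1

end CE

omit [Group H] E in
private theorem tor_d2 {n : ℕ} {c : G → G → M} (h : ∀ x y, n • c x y = 0) (x y z : G) : n • d2 c x y z = 0 := by
  unfold d2
  rw [smul_sub, smul_add, smul_sub, h, h, h, h]
  simp

/-- step 1 -/
private theorem step1 {n : ℕ} {w : G → G → G → M} (hw : ∀ x y z t, d3 w x y z t = 0) (hn : Nr3 w)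
    (ht : ∀ x y z, n • w x y z = 0) (hA : ∀ a b c, w (E.i a) (E.i b) (E.i c) = 0) :
    ∃ c : G → G → M, Nr2 c ∧ (∀ x y, n • c x y = 0) ∧
      (∀ a y z, w (E.i a) y z - d2 c (E.i a) y z = 0) := by
  let C : ZMod p → G → M := fun a z => w (E.i a) (E.i (E.et z)) (E.s (E.pi z))
  have C0 : ∀ z, C 0 z = 0 := fun z => by
    show w (E.i 0) _ _ = 0
    rw [E.i_zero, hn.l]
  let c : G → G → M := fun x z => C (E.et x) (E.s (E.pi x) * z) - C (E.et x) (E.s (E.pi x)) -
    w (E.i (E.et x)) (E.s (E.pi x)) z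
  have cn : Nr2 c := by
    refine ⟨fun y => ?_, fun x => ?_⟩
    · show C (E.et 1) _ - C (E.et 1) _ - w (E.i (E.et 1)) _ _ = 0
      rw [E.et_one, C0, C0, E.i_zero, hn.l]
      simp
    · show C (E.et x) (E.s (E.pi x) * 1) - C (E.et x) (E.s (E.pi x)) - w (E.i (E.et x)) (E.s (E.pi x)) 1 = 0
      rw [mul_one, hn.r]
      simp
  have ct : ∀ x y, n • c x y = 0 := by
    intro x y
    show n • (C _ _ - C _ _ - w _ _ _) = 0
    rw [smul_sub, smul_sub, ht, ht, ht]
    simp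
  have c_i : ∀ a z, c (E.i a) z = C a z := by
    intro a z
    show C (E.et (E.i a)) (E.s (E.pi (E.i a)) * z) - C (E.et (E.i a)) (E.s (E.pi (E.i a))) -
      w (E.i (E.et (E.i a))) (E.s (E.pi (E.i a))) z = C a z
    have e : C a 1 = 0 := by
      show w (E.i a) (E.i (E.et 1)) (E.s (E.pi 1)) = 0
      rw [E.et_one, E.i_zero, hn.m]
    rw [E.et_i', E.pi_i, E.s_one, one_mul, hn.m, e]
    simp
  have c_s : ∀ g z, c (E.s g) z = 0 := by
    intro g z
    show C (E.et (E.s g)) _ - C (E.et (E.s g)) _ - w (E.i (E.et (E.s g))) _ _ = 0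
    rw [E.et_s, C0, C0, E.i_zero, hn.l]
    simp
  have c_is : ∀ a g z, c (E.i a * E.s g) z = C a (E.s g * z) - C a (E.s g) - w (E.i a) (E.s g) z := by
    intro a g z
    show C (E.et (E.i a * E.s g)) (E.s (E.pi (E.i a * E.s g)) * z) - C (E.et (E.i a * E.s g)) (E.s (E.pi (E.i a * E.s g))) -
      w (E.i (E.et (E.i a * E.s g))) (E.s (E.pi (E.i a * E.s g))) z = _
    rw [E.et_i, E.et_s, add_zero, E.pi_mul, E.pi_s]
  refine ⟨c, cn, ct, ?_⟩
  -- (alpha)
  have al : ∀ a g z, w (E.i a) (E.s g) z - d2 c (E.i a) (E.s g) z = 0 := by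
    intro a g z
    unfold d2
    rw [c_s, c_is, c_i, c_i]
    abel
  -- (beta)
  have be : ∀ a b z, w (E.i a) (E.i b) z - d2 c (E.i a) (E.i b) z = 0 := by
    intro a b z
    have e := hw (E.i a) (E.i b) (E.i (E.et z)) (E.s (E.pi z))
    unfold d3 at e
    rw [hA, ← E.i_add, ← E.i_add, ← E.dec z] at e
    unfold d2
    rw [c_i, ← E.i_add, c_i, c_i, c_i]
    have e1 : C a (E.i b * z) = w (E.i a) (E.i (b + E.et z)) (E.s (E.pi z)) := by
      show w (E.i a) (E.i (E.et (E.i b * z))) (E.s (E.pi (E.i b * z))) = _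
      rw [E.et_i, E.pi_mul]
    have e2 : C a (E.i b) = 0 := by
      show w (E.i a) (E.i (E.et (E.i b))) (E.s (E.pi (E.i b))) = 0
      rw [E.pi_i, E.s_one, hn.r]
    have e3 : C b z = w (E.i b) (E.i (E.et z)) (E.s (E.pi z)) := rfl
    have e4 : C (a + b) z = w (E.i (a + b)) (E.i (E.et z)) (E.s (E.pi z)) := rfl
    rw [e1, e2, e3, e4]
    linear_combination (norm := abel) -e
  intro a y z
  have e : d3 (fun x y z => w x y z - d2 c x y z) (E.i a) (E.i (E.et y)) (E.s (E.pi y)) z = 0 := by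
    rw [d3_sub, hw, d3_d2, sub_zero]
  unfold d3 at e
  beta_reduce at e
  rw [← E.i_add, al, al, be, be, ← E.dec y] at e
  linear_combination (norm := abel) e

/-- a cocycle which vanishes if the first argument is in the kernel depends on the first argument modulo the kernel only -/
private theorem dep1 {w : G → G → G → M} (hw : ∀ x y z t, d3 w x y z t = 0) (h : ∀ a y z, w (E.i a) y z = 0)
    (a : ZMod p) (x y z : G) : w (E.i a * x) y z = w x y z := by
  have e := hw (E.i a) x y z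
  unfold d3 at e
  rw [h, h, h] at e
  linear_combination (norm := abel) -e

private theorem dep1' {w : G → G → G → M} (hw : ∀ x y z t, d3 w x y z t = 0) (h : ∀ a y z, w (E.i a) y z = 0)
    (x y z : G) : w x y z = w (E.s (E.pi x)) y z := by
  conv_lhs => rw [E.dec x, dep1 E hw h]

/-- step 2 -/
private theorem step2 [NeZero p] {j : ℕ} (hdiv : ∀ x : M, p ^ j • x = 0 → ∃ y, p • y = x) {w : G → G → G → M}
    (hw : ∀ x y z t, d3 w x y z t = 0) (hn : Nr3 w) (ht : ∀ x y z, p ^ j • w x y z = 0)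
    (h : ∀ a y z, w (E.i a) y z = 0) :
    ∃ c : G → G → M, Nr2 c ∧ (∀ x y, p ^ (j + 1) • c x y = 0) ∧ (∀ a y z, d2 c (E.i a) y z = 0) ∧
      (∀ x a b, w x (E.i a) (E.i b) - d2 c x (E.i a) (E.i b) = 0) := by
  classical
  have hx : ∀ g : H, ∃ ga : ZMod p → M, (∀ a, p ^ (j + 1) • ga a = 0) ∧ ga 0 = 0 ∧
      (∀ a b, w (E.s g) (E.i a) (E.i b) = ga b - ga (a + b) + ga a) := by
    intro g
    refine cyc hdiv (f := fun a b => w (E.s g) (E.i a) (E.i b)) ?_ ?_ ?_ ?_
    · intro a b c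
      have e := hw (E.s g) (E.i a) (E.i b) (E.i c)
      unfold d3 at e
      rw [h, ← E.cent, dep1 E hw h, ← E.i_add, ← E.i_add] at e
      linear_combination (norm := abel) -e
    · intro b
      show w (E.s g) (E.i 0) (E.i b) = 0
      rw [E.i_zero, hn.m]
    · intro a
      show w (E.s g) (E.i a) (E.i 0) = 0
      rw [E.i_zero, hn.r]
    · intro a b
      exact ht _ _ _
  choose ga ga_t ga_0 ga_d using hx
  let gm : H → ZMod p → M := fun g a => if g = 1 then 0 else - ga g a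
  have gm1 : ∀ a, gm 1 a = 0 := fun a => if_pos rfl
  have gm0 : ∀ g, gm g 0 = 0 := by
    intro g
    show (if g = 1 then 0 else - ga g 0) = 0
    rw [ga_0, neg_zero, ite_self]
  have gmt : ∀ g a, p ^ (j + 1) • gm g a = 0 := by
    intro g a
    show p ^ (j + 1) • (if g = 1 then 0 else - ga g a) = 0
    split_ifs
    · rw [smul_zero]
    · rw [smul_neg, ga_t, neg_zero]
  have gmd : ∀ g a b, w (E.s g) (E.i a) (E.i b) = - (gm g b - gm g (a + b) + gm g a) := by
    intro g a b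
    by_cases hg : g = 1
    · rw [hg, E.s_one, hn.l, gm1, gm1, gm1]
      simp
    · show _ = - ((if g = 1 then 0 else - ga g b) - (if g = 1 then 0 else - ga g (a + b)) +
        (if g = 1 then 0 else - ga g a))
      rw [if_neg hg, if_neg hg, if_neg hg, ga_d]
      abel
  refine ⟨fun x z => gm (E.pi x) (E.et z), ⟨fun y => ?_, fun x => ?_⟩, fun x y => gmt _ _, fun a y z => ?_,
    fun x a b => ?_⟩
  · rw [map_one, gm1]
  · rw [E.et_one, gm0]
  · unfold d2
    beta_reduce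
    rw [E.pi_i, gm1, gm1, E.pi_mul]
    abel
  · unfold d2
    beta_reduce
    rw [E.pi_i, gm1, ← E.cent, E.pi_mul, ← E.i_add, E.et_i', E.et_i', E.et_i', dep1' E hw h, gmd]
    abel

/-- step 3 -/
private theorem step3 {n : ℕ} {w : G → G → G → M}
    (hw : ∀ x y z t, d3 w x y z t = 0) (hn : Nr3 w) (ht : ∀ x y z, n • w x y z = 0)
    (h : ∀ a y z, w (E.i a) y z = 0) (h2 : ∀ x a b, w x (E.i a) (E.i b) = 0) :
    ∃ c : G → G → M, Nr2 c ∧ (∀ x y, n • c x y = 0) ∧ (∀ a y z, d2 c (E.i a) y z = 0) ∧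
      (∀ x a z, w x (E.i a) z - d2 c x (E.i a) z = 0) := by
  let c : G → G → M := fun x z => w x (E.i (E.et z)) (E.s (E.pi z))
  have c1 : ∀ a z, c (E.i a) z = 0 := fun a z => h _ _ _
  have c2 : ∀ a x z, c (E.i a * x) z = c x z := fun a x z => dep1 E hw h _ _ _ _
  have c3 : ∀ x a, c x (E.i a) = 0 := by
    intro x a
    show w x (E.i (E.et (E.i a))) (E.s (E.pi (E.i a))) = 0
    rw [E.pi_i, E.s_one, hn.r]
  refine ⟨c, ⟨fun y => ?_, fun x => ?_⟩, fun x y => ht _ _ _, fun a y z => ?_, fun x a z => ?_⟩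
  · have e := c1 0 y
    rwa [E.i_zero] at e
  · have e := c3 x 0
    rwa [E.i_zero] at e
  · unfold d2
    rw [c1, c1, c2]
    abel
  · have e := hw x (E.i a) (E.i (E.et z)) (E.s (E.pi z))
    unfold d3 at e
    rw [h, ← E.cent, dep1 E hw h, ← E.i_add, ← E.dec z, h2] at e
    unfold d2
    rw [c1, ← E.cent, c2, c3]
    have e1 : c x (E.i a * z) = w x (E.i (a + E.et z)) (E.s (E.pi z)) := by
      show w x (E.i (E.et (E.i a * z))) (E.s (E.pi (E.i a * z))) = _
      rw [E.et_i, E.pi_mul]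
    have e2 : c x z = w x (E.i (E.et z)) (E.s (E.pi z)) := rfl
    rw [e1, e2]
    linear_combination (norm := abel) -e

/-- step 4 -/
private theorem step4 [NeZero p] {θ : ZMod p →+ M} (hθ : ∀ x : M, p • x = 0 → ∃ a, θ a = x)
    {w : G → G → G → M} (hw : ∀ x y z t, d3 w x y z t = 0)
    (h : ∀ a y z, w (E.i a) y z = 0) (h2 : ∀ x a z, w x (E.i a) z = 0) :
    ∃ ν : H → H → ZMod p, (∀ x y a, w (E.s x) (E.s y) (E.i a) = θ (ν x y * a)) ∧
      ∀ x y z, w x y z = w (E.s (E.pi x)) (E.s (E.pi y)) (E.s (E.pi z)) + θ (ν (E.pi x) (E.pi y) * E.et z) := by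
  have d1' : ∀ x y z, w x y z = w (E.s (E.pi x)) y z := dep1' E hw h
  have d2a : ∀ a x y z, w x (E.i a * y) z = w x y z := by
    intro a x y z
    have e := hw x (E.i a) y z
    unfold d3 at e
    rw [h, ← E.cent, dep1 E hw h, h2, h2] at e
    linear_combination (norm := abel) e
  have d2' : ∀ x y z, w x y z = w x (E.s (E.pi y)) z := by
    intro x y z
    conv_lhs => rw [E.dec y, d2a]
  have add : ∀ x y a z, w x y (E.i a * z) = w x y z + w x y (E.i a) := by
    intro x y a z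
    have e := hw x y (E.i a) z
    unfold d3 at e
    rw [h2, h2, ← E.cent, d2a] at e
    linear_combination (norm := abel) -e
  -- the additive part
  have hN : ∀ x y, ∃ v : ZMod p, ∀ a, w x y (E.i a) = θ (v * a) := by
    intro x y
    have hadd : ∀ a b, w x y (E.i (a + b)) = w x y (E.i a) + w x y (E.i b) := by
      intro a b
      rw [E.i_add, add]
      abel
    let f : ZMod p →+ M := AddMonoidHom.mk' (fun a => w x y (E.i a)) hadd
    have hp : p • f 1 = 0 := by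
      rw [← map_nsmul, nsmul_eq_mul, mul_one, ZMod.natCast_self, map_zero]
    obtain ⟨v, hv⟩ := hθ _ hp
    refine ⟨v, fun a => ?_⟩
    have e1 : f a = a.val • f 1 := by
      rw [← map_nsmul, nsmul_eq_mul, mul_one, ZMod.natCast_zmod_val]
    show f a = θ (v * a)
    rw [e1, ← hv, ← map_nsmul, nsmul_eq_mul, ZMod.natCast_zmod_val, mul_comm]
  choose N hN using hN
  refine ⟨fun x y => N (E.s x) (E.s y), fun x y a => hN _ _ _, fun x y z => ?_⟩
  have e : w x y z = w (E.s (E.pi x)) (E.s (E.pi y)) (E.i (E.et z) * E.s (E.pi z)) := by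
    rw [← E.dec z, ← d2', ← d1']
  rw [e, add, hN]

/-- the normal form -/
theorem nf [NeZero p] {θ : ZMod p →+ M} (hθi : Function.Injective θ) (hθ : ∀ x : M, p • x = 0 → ∃ a, θ a = x)
    {j : ℕ} (hdiv : ∀ x : M, p ^ j • x = 0 → ∃ y, p • y = x) {w : G → G → G → M}
    (hw : ∀ x y z t, d3 w x y z t = 0) (hn : Nr3 w) (ht : ∀ x y z, p ^ j • w x y z = 0) {β : ZMod p → ZMod p → M}
    (hβl : ∀ b, β 0 b = 0) (hβr : ∀ a, β a 0 = 0) (hβt : ∀ a b, p ^ j • β a b = 0)
    (hβ : ∀ a b c, w (E.i a) (E.i b) (E.i c) = β b c - β (a + b) c + β a (b + c) - β a b) :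
    ∃ c : G → G → M, Nr2 c ∧ (∀ x y, p ^ (j + 1) • c x y = 0) ∧
      ∃ ν : H → H → ZMod p, Nr2 ν ∧ (∀ x y z, d2 ν x y z = 0) ∧
      ∃ κ : H → H → H → M, Nr3 κ ∧ (∀ x y z, p ^ (j + 1) • κ x y z = 0) ∧
        ∀ x y z, w x y z = κ (E.pi x) (E.pi y) (E.pi z) + θ (ν (E.pi x) (E.pi y) * E.et z) + d2 c x y z := by
  classical
  -- subtract `β`
  let c0 : G → G → M := fun x y => if E.pi x = 1 ∧ E.pi y = 1 then β (E.et x) (E.et y) else 0
  have c0n : Nr2 c0 := by
    refine ⟨fun y => ?_, fun x => ?_⟩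
    · show (if E.pi 1 = 1 ∧ E.pi y = 1 then β (E.et 1) (E.et y) else 0) = 0
      rw [E.et_one, hβl, ite_self]
    · show (if E.pi x = 1 ∧ E.pi 1 = 1 then β (E.et x) (E.et 1) else 0) = 0
      rw [E.et_one, hβr, ite_self]
  have c0t : ∀ x y, p ^ j • c0 x y = 0 := by
    intro x y
    show p ^ j • (if E.pi x = 1 ∧ E.pi y = 1 then β (E.et x) (E.et y) else 0) = 0
    split_ifs
    · exact hβt _ _
    · rw [smul_zero]
  have c0i : ∀ a b, c0 (E.i a) (E.i b) = β a b := by
    intro a b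
    show (if E.pi (E.i a) = 1 ∧ E.pi (E.i b) = 1 then β (E.et (E.i a)) (E.et (E.i b)) else 0) = β a b
    rw [if_pos ⟨E.pi_i a, E.pi_i b⟩, E.et_i', E.et_i']
  let w1 : G → G → G → M := fun x y z => w x y z - d2 c0 x y z
  have w1c : ∀ x y z t, d3 w1 x y z t = 0 := by
    intro x y z t
    show d3 (fun x y z => w x y z - d2 c0 x y z) x y z t = 0
    rw [d3_sub, hw, d3_d2, sub_zero]
  have c0d := Nr3.d2 c0n
  have w1n : Nr3 w1 := by
    refine ⟨fun y z => ?_, fun x z => ?_, fun x y => ?_⟩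
    · show w _ _ _ - d2 c0 _ _ _ = 0
      rw [hn.l, c0d.l, sub_zero]
    · show w _ _ _ - d2 c0 _ _ _ = 0
      rw [hn.m, c0d.m, sub_zero]
    · show w _ _ _ - d2 c0 _ _ _ = 0
      rw [hn.r, c0d.r, sub_zero]
  have w1t : ∀ x y z, p ^ j • w1 x y z = 0 := by
    intro x y z
    show p ^ j • (w x y z - d2 c0 x y z) = 0
    rw [smul_sub, ht, tor_d2 c0t, sub_zero]
  have w1A : ∀ a b c, w1 (E.i a) (E.i b) (E.i c) = 0 := by
    intro a b c
    show w (E.i a) (E.i b) (E.i c) - d2 c0 (E.i a) (E.i b) (E.i c) = 0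
    unfold d2
    rw [hβ, ← E.i_add, ← E.i_add, c0i, c0i, c0i, c0i, sub_self]
  obtain ⟨c1, c1n, c1t, h1⟩ := step1 E w1c w1n w1t w1A
  let w2 : G → G → G → M := fun x y z => w1 x y z - d2 c1 x y z
  have w2c : ∀ x y z t, d3 w2 x y z t = 0 := by
    intro x y z t
    show d3 (fun x y z => w1 x y z - d2 c1 x y z) x y z t = 0
    rw [d3_sub, w1c, d3_d2, sub_zero]
  have c1d := Nr3.d2 c1n
  have w2n : Nr3 w2 := by
    refine ⟨fun y z => ?_, fun x z => ?_, fun x y => ?_⟩
    · show w1 _ _ _ - d2 c1 _ _ _ = 0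
      rw [w1n.l, c1d.l, sub_zero]
    · show w1 _ _ _ - d2 c1 _ _ _ = 0
      rw [w1n.m, c1d.m, sub_zero]
    · show w1 _ _ _ - d2 c1 _ _ _ = 0
      rw [w1n.r, c1d.r, sub_zero]
  have w2t : ∀ x y z, p ^ j • w2 x y z = 0 := by
    intro x y z
    show p ^ j • (w1 x y z - d2 c1 x y z) = 0
    rw [smul_sub, w1t, tor_d2 c1t, sub_zero]
  obtain ⟨c2, c2n, c2t, h2, h2'⟩ := step2 E hdiv w2c w2n w2t h1
  let w3 : G → G → G → M := fun x y z => w2 x y z - d2 c2 x y z
  have w3c : ∀ x y z t, d3 w3 x y z t = 0 := by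
    intro x y z t
    show d3 (fun x y z => w2 x y z - d2 c2 x y z) x y z t = 0
    rw [d3_sub, w2c, d3_d2, sub_zero]
  have c2d := Nr3.d2 c2n
  have w3n : Nr3 w3 := by
    refine ⟨fun y z => ?_, fun x z => ?_, fun x y => ?_⟩
    · show w2 _ _ _ - d2 c2 _ _ _ = 0
      rw [w2n.l, c2d.l, sub_zero]
    · show w2 _ _ _ - d2 c2 _ _ _ = 0
      rw [w2n.m, c2d.m, sub_zero]
    · show w2 _ _ _ - d2 c2 _ _ _ = 0
      rw [w2n.r, c2d.r, sub_zero]
  have w3t : ∀ x y z, p ^ (j + 1) • w3 x y z = 0 := by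
    intro x y z
    show p ^ (j + 1) • (w2 x y z - d2 c2 x y z) = 0
    rw [smul_sub, tor_d2 c2t, sub_zero, pow_succ', mul_smul, w2t, smul_zero]
  have w3i : ∀ a y z, w3 (E.i a) y z = 0 := by
    intro a y z
    show w2 (E.i a) y z - d2 c2 (E.i a) y z = 0
    rw [h2, sub_zero]
    exact h1 a y z
  obtain ⟨c3, c3n, c3t, h3, h3'⟩ := step3 E w3c w3n w3t w3i h2'
  let w4 : G → G → G → M := fun x y z => w3 x y z - d2 c3 x y z
  have w4c : ∀ x y z t, d3 w4 x y z t = 0 := by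
    intro x y z t
    show d3 (fun x y z => w3 x y z - d2 c3 x y z) x y z t = 0
    rw [d3_sub, w3c, d3_d2, sub_zero]
  have c3d := Nr3.d2 c3n
  have w4n : Nr3 w4 := by
    refine ⟨fun y z => ?_, fun x z => ?_, fun x y => ?_⟩
    · show w3 _ _ _ - d2 c3 _ _ _ = 0
      rw [w3n.l, c3d.l, sub_zero]
    · show w3 _ _ _ - d2 c3 _ _ _ = 0
      rw [w3n.m, c3d.m, sub_zero]
    · show w3 _ _ _ - d2 c3 _ _ _ = 0
      rw [w3n.r, c3d.r, sub_zero]
  have w4t : ∀ x y z, p ^ (j + 1) • w4 x y z = 0 := by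
    intro x y z
    show p ^ (j + 1) • (w3 x y z - d2 c3 x y z) = 0
    rw [smul_sub, w3t, tor_d2 c3t, sub_zero]
  have w4i : ∀ a y z, w4 (E.i a) y z = 0 := by
    intro a y z
    show w3 (E.i a) y z - d2 c3 (E.i a) y z = 0
    rw [h3, sub_zero]
    exact w3i a y z
  obtain ⟨ν, hν, h4⟩ := step4 E hθ w4c w4i h3'
  have smul_succ : ∀ {x : M}, p ^ j • x = 0 → p ^ (j + 1) • x = 0 := by
    intro x hx
    rw [pow_succ', mul_smul, hx, smul_zero]
  refine ⟨fun x y => c0 x y + c1 x y + c2 x y + c3 x y, ⟨fun y => ?_, fun x => ?_⟩, fun x y => ?_, ν,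
    ⟨fun y => ?_, fun x => ?_⟩, fun x y z => ?_, fun x y z => w4 (E.s x) (E.s y) (E.s z),
    ⟨fun y z => ?_, fun x z => ?_, fun x y => ?_⟩, fun x y z => w4t _ _ _, fun x y z => ?_⟩
  · rw [c0n.l, c1n.l, c2n.l, c3n.l]
    simp
  · rw [c0n.r, c1n.r, c2n.r, c3n.r]
    simp
  · rw [smul_add, smul_add, smul_add, smul_succ (c0t x y), smul_succ (c1t x y), c2t, c3t]
    simp
  · apply hθi
    rw [map_zero, ← mul_one (ν 1 y), ← hν, E.s_one, w4n.l]
  · apply hθi
    rw [map_zero, ← mul_one (ν x 1), ← hν, E.s_one, w4n.m]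
  · -- the cocycle identity
    apply hθi
    have key : ∀ x y z a, w4 (E.s x) (E.s y) (E.i a * z) = w4 (E.s x) (E.s y) z + θ (ν x y * a) := by
      intro x y z a
      rw [h4 (E.s x) (E.s y) (E.i a * z), h4 (E.s x) (E.s y) z, E.pi_mul, E.et_i, E.pi_s, E.pi_s, mul_add, map_add]
      abel
    have key' : ∀ u v z a, w4 u v (E.i a * z) = w4 u v z + θ (ν (E.pi u) (E.pi v) * a) := by
      intro u v z a
      rw [h4 u v (E.i a * z), h4 u v z, E.pi_mul, E.et_i, mul_add, map_add]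
      abel
    have e1 := w4c (E.s x) (E.s y) (E.s z) (E.i 1 * 1)
    have e2 := w4c (E.s x) (E.s y) (E.s z) 1
    unfold d3 at e1 e2
    have e3 : E.s z * (E.i 1 * 1) = E.i 1 * (E.s z * 1) := by
      rw [← mul_assoc, ← E.cent, mul_assoc]
    rw [e3, key', key', key', key', map_mul E.pi, map_mul E.pi, E.pi_s, E.pi_s, E.pi_s] at e1
    simp only [mul_one] at e1 e2
    unfold d2
    rw [map_zero, map_sub, map_add, map_sub]
    linear_combination (norm := abel) e1 - e2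
  · show w4 (E.s 1) _ _ = 0
    rw [E.s_one, w4n.l]
  · show w4 _ (E.s 1) _ = 0
    rw [E.s_one, w4n.m]
  · show w4 _ _ (E.s 1) = 0
    rw [E.s_one, w4n.r]
  · have e := h4 x y z
    have e1 : w4 x y z = w x y z - d2 c0 x y z - d2 c1 x y z - d2 c2 x y z - d2 c3 x y z := rfl
    rw [e1] at e
    have e2 : d2 (fun x y => c0 x y + c1 x y + c2 x y + c3 x y) x y z =
        d2 c0 x y z + d2 c1 x y z + d2 c2 x y z + d2 c3 x y z := by
      rw [d2_add (fun x y => c0 x y + c1 x y + c2 x y) c3, d2_add (fun x y => c0 x y + c1 x y) c2, d2_add c0 c1]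
    rw [e2]
    linear_combination (norm := abel) e

end

end Pool.Agent.H19.NF
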